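import Mathlib

/-!
# Subgroups generated by generalised reflections need not be right-angled Coxeter groups

For every `n ≥ 2` the right-angled Coxeter group of the cocktail party graph on `Fin n × Bool`
(which is the `n`-th power of the infinite dihedral group, of dimension `n`) contains a finite set
of generalised reflections generating a copy of `ℤⁿ ⋊ {±1}`, which is not a right-angled Coxeter
group.
-/

namespace Pool.Agent.Results.MP_6a2cdd_al.NotCoxeter

universe u v

/-- Defining relators of the right-angled Coxeter group of `Γ`: the square of every vertex and the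
commutator of the ends of every edge. -/
def relators {V : Type u} (Γ : SimpleGraph V) : Set (FreeGroup V) :=
  {r | (∃ a : V, r = FreeGroup.of a * FreeGroup.of a) ∨
    ∃ a b : V, Γ.Adj a b ∧
      r = FreeGroup.of a * FreeGroup.of b * (FreeGroup.of a)⁻¹ * (FreeGroup.of b)⁻¹}

/-- The right-angled Coxeter group `C(Γ)`. -/
abbrev RACG {V : Type u} (Γ : SimpleGraph V) : Type u := PresentedGroup (relators Γ)

/-- The standard generator of `C(Γ)` given by a vertex. -/
def gen {V : Type u} (Γ : SimpleGraph V) (a : V) : RACG Γ := PresentedGroup.of a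

/-- A reflection: a conjugate of a standard generator. -/
def IsReflection {V : Type u} (Γ : SimpleGraph V) (g : RACG Γ) : Prop :=
  ∃ (h : RACG Γ) (a : V), g = h * gen Γ a * h⁻¹

/-- A generalised reflection: a product of a non-empty finite list of pairwise distinct, pairwise
commuting reflections. -/
def IsGeneralisedReflection {V : Type u} (Γ : SimpleGraph V) (g : RACG Γ) : Prop :=
  ∃ l : List (RACG Γ), l ≠ [] ∧ l.Nodup ∧ (∀ r ∈ l, IsReflection Γ r) ∧
    (∀ r ∈ l, ∀ s ∈ l, r * s = s * r) ∧ g = l.prod

section General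

variable {V : Type u} (Γ : SimpleGraph V)

lemma gen_mul_self (a : V) : gen Γ a * gen Γ a = 1 := by
  have h : (PresentedGroup.mk (relators Γ)) (FreeGroup.of a * FreeGroup.of a) = 1 :=
    PresentedGroup.one_of_mem (Or.inl ⟨a, rfl⟩)
  simpa [gen, PresentedGroup.of] using h

lemma gen_comm {a b : V} (hab : Γ.Adj a b) : gen Γ a * gen Γ b = gen Γ b * gen Γ a := by
  have h : (PresentedGroup.mk (relators Γ))
      (FreeGroup.of a * FreeGroup.of b * (FreeGroup.of a)⁻¹ * (FreeGroup.of b)⁻¹) = 1 :=
    PresentedGroup.one_of_mem (Or.inr ⟨a, b, hab, rfl⟩)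
  rw [map_mul, map_mul, map_mul, map_inv, map_inv] at h
  have h2 : gen Γ a * gen Γ b * (gen Γ a)⁻¹ * (gen Γ b)⁻¹ = 1 := h
  calc gen Γ a * gen Γ b = (gen Γ a * gen Γ b * (gen Γ a)⁻¹ * (gen Γ b)⁻¹) *
        (gen Γ b * gen Γ a) := by group
    _ = gen Γ b * gen Γ a := by rw [h2, one_mul]

/-- Universal property. -/
def lift {G : Type v} [Group G] (f : V → G) (h1 : ∀ a, f a * f a = 1)
    (h2 : ∀ a b, Γ.Adj a b → f a * f b = f b * f a) : RACG Γ →* G :=
  PresentedGroup.toGroup (f := f) (by
    rintro r (⟨a, rfl⟩ | ⟨a, b, hab, rfl⟩)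
    · simpa using h1 a
    · simp only [map_mul, FreeGroup.lift_apply_of, map_inv]
      rw [h2 a b hab]; group)

lemma lift_gen {G : Type v} [Group G] (f : V → G) (h1 : ∀ a, f a * f a = 1)
    (h2 : ∀ a b, Γ.Adj a b → f a * f b = f b * f a) (a : V) :
    lift Γ f h1 h2 (gen Γ a) = f a := by
  simp [lift, gen]

lemma closure_range_gen : Subgroup.closure (Set.range (gen Γ)) = ⊤ :=
  PresentedGroup.closure_range_of _

/-- The homomorphism to `Perm (Fin 4)` attached to three vertices. -/
lemma exists_perm_hom {a b c : V} (hab : a ≠ b) (hbc : b ≠ c) (hac : a ≠ c)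
    (nab : ¬ Γ.Adj a b) (nbc : ¬ Γ.Adj b c) :
    ∃ θ : RACG Γ →* Equiv.Perm (Fin 4), θ (gen Γ a) = Equiv.swap 0 1 ∧
      θ (gen Γ b) = Equiv.swap 1 2 ∧ θ (gen Γ c) = Equiv.swap 2 3 := by
  classical
  let f : V → Equiv.Perm (Fin 4) := fun x =>
    if x = a then Equiv.swap 0 1 else if x = b then Equiv.swap 1 2
      else if x = c then Equiv.swap 2 3 else 1
  have fa : f a = Equiv.swap 0 1 := by simp [f]
  have fb : f b = Equiv.swap 1 2 := by simp [f, hab.symm]
  have fc : f c = Equiv.swap 2 3 := by simp [f, hac.symm, hbc.symm]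
  have h1 : ∀ x, f x * f x = 1 := by
    intro x
    simp only [f]
    split_ifs <;> simp
  have key : (Equiv.swap (0 : Fin 4) 1) * Equiv.swap 2 3 = Equiv.swap 2 3 * Equiv.swap 0 1 := by
    decide
  have h2 : ∀ x y, Γ.Adj x y → f x * f y = f y * f x := by
    intro x y hxy
    by_cases hx1 : x = a
    · subst hx1
      by_cases hy2 : y = b
      · subst hy2; exact absurd hxy nab
      by_cases hy3 : y = c
      · subst hy3; rw [fa, fc]; exact key
      · by_cases hy1 : y = x
        · subst hy1; rfl
        · have : f y = 1 := by simp [f, hy1, hy2, hy3]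
          rw [this]; simp
    by_cases hx2 : x = b
    · subst hx2
      by_cases hy1 : y = a
      · subst hy1; exact absurd hxy.symm nab
      by_cases hy3 : y = c
      · subst hy3; exact absurd hxy nbc
      · by_cases hy2 : y = x
        · subst hy2; rfl
        · have : f y = 1 := by simp [f, hy1, hy2, hy3]
          rw [this]; simp
    by_cases hx3 : x = c
    · subst hx3
      by_cases hy2 : y = b
      · subst hy2; exact absurd hxy.symm nbc
      by_cases hy1 : y = a
      · subst hy1; rw [fa, fc]; exact key.symm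
      · by_cases hy3 : y = x
        · subst hy3; rfl
        · have : f y = 1 := by simp [f, hy1, hy2, hy3]
          rw [this]; simp
    have : f x = 1 := by simp [f, hx1, hx2, hx3]
    rw [this]; simp
  exact ⟨lift Γ f h1 h2, by rw [lift_gen, fa], by rw [lift_gen, fb], by rw [lift_gen, fc]⟩

/-- The homomorphism to `Perm (Fin 4)` attached to two non-adjacent vertices. -/
lemma exists_perm_hom_two {a b : V} (hab : a ≠ b) (nab : ¬ Γ.Adj a b) :
    ∃ θ : RACG Γ →* Equiv.Perm (Fin 4), θ (gen Γ a) = Equiv.swap 0 1 ∧
      θ (gen Γ b) = Equiv.swap 1 2 := by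
  classical
  let f : V → Equiv.Perm (Fin 4) := fun x =>
    if x = a then Equiv.swap 0 1 else if x = b then Equiv.swap 1 2 else 1
  have fa : f a = Equiv.swap 0 1 := by simp [f]
  have fb : f b = Equiv.swap 1 2 := by simp [f, hab.symm]
  have h1 : ∀ x, f x * f x = 1 := by
    intro x
    simp only [f]
    split_ifs <;> simp
  have h2 : ∀ x y, Γ.Adj x y → f x * f y = f y * f x := by
    intro x y hxy
    by_cases hx1 : x = a
    · subst hx1
      by_cases hy2 : y = b
      · subst hy2; exact absurd hxy nab
      · by_cases hy1 : y = x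
        · subst hy1; rfl
        · have : f y = 1 := by simp [f, hy1, hy2]
          rw [this]; simp
    by_cases hx2 : x = b
    · subst hx2
      by_cases hy1 : y = a
      · subst hy1; exact absurd hxy.symm nab
      · by_cases hy2 : y = x
        · subst hy2; rfl
        · have : f y = 1 := by simp [f, hy1, hy2]
          rw [this]; simp
    have : f x = 1 := by simp [f, hx1, hx2]
    rw [this]; simp
  exact ⟨lift Γ f h1 h2, by rw [lift_gen, fa], by rw [lift_gen, fb]⟩

lemma gen_ne_one (a : V) : gen Γ a ≠ 1 := by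
  intro h
  have := congrArg (lift Γ (G := Equiv.Perm (Fin 2)) (fun _ => Equiv.swap 0 1)
    (by intro _; decide) (by intro _ _ _; rfl)) h
  rw [lift_gen, map_one] at this
  exact absurd this (by decide)

/-- A group in which squares commute, in which the centraliser of every involution has exponent
two, which is not commutative and not generated by two elements, is not a right-angled Coxeter
group. -/
lemma not_racg {H : Type v} [Group H]
    (hsq : ∀ g h : H, (g * g) * (h * h) = (h * h) * (g * g))
    (hinv : ∀ x g : H, x * x = 1 → x ≠ 1 → x * g = g * x → g * g = 1)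
    (hna : ∃ g h : H, g * h ≠ h * g)
    (h3 : ∀ p q : H, Subgroup.closure ({p, q} : Set H) ≠ ⊤) :
    IsEmpty (H ≃* RACG Γ) := by
  refine ⟨fun e => ?_⟩
  have hsq' : ∀ g h : RACG Γ, (g * g) * (h * h) = (h * h) * (g * g) := by
    intro g h
    have := congrArg e (hsq (e.symm g) (e.symm h))
    simpa using this
  have hinv' : ∀ x g : RACG Γ, x * x = 1 → x ≠ 1 → x * g = g * x → g * g = 1 := by
    intro x g h1 h2 h3
    have a1 : e.symm x * e.symm x = 1 := by rw [← map_mul, h1, map_one]
    have a2 : e.symm x ≠ 1 := by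
      intro h; apply h2; simpa using congrArg e h
    have a3 : e.symm x * e.symm g = e.symm g * e.symm x := by rw [← map_mul, h3, map_mul]
    have := congrArg e (hinv _ _ a1 a2 a3)
    simpa using this
  -- two non-adjacent vertices
  have hex : ∃ a b : V, a ≠ b ∧ ¬ Γ.Adj a b := by
    by_contra hcon
    push Not at hcon
    have hcomm : ∀ a b : V, gen Γ a * gen Γ b = gen Γ b * gen Γ a := by
      intro a b
      by_cases hab : a = b
      · subst hab; rfl
      · exact gen_comm Γ (hcon a b hab)
    have hall : ∀ g : RACG Γ, ∀ b : V, g * gen Γ b = gen Γ b * g := by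
      intro g b
      have hg : g ∈ Subgroup.closure (Set.range (gen Γ)) := by
        rw [closure_range_gen]; trivial
      induction hg using Subgroup.closure_induction with
      | mem x hx => obtain ⟨a, rfl⟩ := hx; exact hcomm a b
      | one => simp
      | mul x y _ _ hx hy => rw [mul_assoc, hy, ← mul_assoc, hx, mul_assoc]
      | inv x _ hx =>
        have h5 := congrArg (fun z => x⁻¹ * z * x⁻¹) hx
        simp only [mul_assoc, inv_mul_cancel_left, mul_inv_cancel, mul_one] at h5
        exact h5.symm
    have hall2 : ∀ g h : RACG Γ, g * h = h * g := by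
      intro g h
      have hh : h ∈ Subgroup.closure (Set.range (gen Γ)) := by
        rw [closure_range_gen]; trivial
      induction hh using Subgroup.closure_induction with
      | mem x hx => obtain ⟨a, rfl⟩ := hx; exact hall g a
      | one => simp
      | mul x y _ _ hx hy => rw [← mul_assoc, hx, mul_assoc, hy, ← mul_assoc]
      | inv x _ hx =>
        have h5 := congrArg (fun z => x⁻¹ * z * x⁻¹) hx
        simp only [mul_assoc, inv_mul_cancel_left, mul_inv_cancel, mul_one] at h5
        exact h5.symm
    obtain ⟨g, h, hgh⟩ := hna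
    apply hgh
    have := hall2 (e g) (e h)
    rw [← map_mul, ← map_mul] at this
    exact e.injective this
  obtain ⟨a, b, hab, nab⟩ := hex
  -- a third vertex
  have hthird : ∃ c : V, c ≠ a ∧ c ≠ b := by
    by_contra hcon
    push Not at hcon
    apply h3 (e.symm (gen Γ a)) (e.symm (gen Γ b))
    have hcl : Subgroup.closure ({gen Γ a, gen Γ b} : Set (RACG Γ)) = ⊤ := by
      rw [eq_top_iff, ← closure_range_gen Γ, Subgroup.closure_le]
      rintro _ ⟨c, rfl⟩
      by_cases hca : c = a
      · subst hca; exact Subgroup.subset_closure (by simp)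
      · have := hcon c hca
        subst this; exact Subgroup.subset_closure (by simp)
    rw [eq_top_iff]
    intro x _
    have hx : e x ∈ Subgroup.closure ({gen Γ a, gen Γ b} : Set (RACG Γ)) := by
      rw [hcl]; trivial
    have hx2 : e.symm (e x) ∈ (Subgroup.closure ({gen Γ a, gen Γ b} : Set (RACG Γ))).map
        e.symm.toMonoidHom := ⟨e x, hx, rfl⟩
    rw [MonoidHom.map_closure] at hx2
    simp only [MulEquiv.symm_apply_apply] at hx2
    convert hx2 using 2
    ext y
    simp [Set.image_pair]
  obtain ⟨c, hca, hcb⟩ := hthird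
  by_cases h1 : Γ.Adj c a
  · by_cases h2 : Γ.Adj c b
    · -- `c` commutes with `ab`
      have hc : gen Γ c * (gen Γ a * gen Γ b) = (gen Γ a * gen Γ b) * gen Γ c := by
        rw [← mul_assoc, gen_comm Γ h1, mul_assoc, gen_comm Γ h2, ← mul_assoc]
      have := hinv' _ _ (gen_mul_self Γ c) (gen_ne_one Γ c) hc
      obtain ⟨θ, ha, hb⟩ := exists_perm_hom_two Γ hab nab
      have h6 := congrArg θ this
      rw [map_mul, map_mul, ha, hb, map_one] at h6
      exact absurd h6 (by decide)
    · -- `a, b, c` with `b` in the middle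
      obtain ⟨θ, ha, hb, hc⟩ := exists_perm_hom Γ hab hcb.symm hca.symm nab
        (fun h => h2 h.symm)
      have h6 := congrArg θ (hsq' (gen Γ a * gen Γ b) (gen Γ b * gen Γ c))
      simp only [map_mul, ha, hb, hc] at h6
      exact absurd h6 (by decide)
  · -- `c, a, b` with `a` in the middle
    obtain ⟨θ, ha, hb, hc⟩ := exists_perm_hom Γ hca hab hcb h1 nab
    have h6 := congrArg θ (hsq' (gen Γ c * gen Γ a) (gen Γ a * gen Γ b))
    simp only [map_mul, ha, hb, hc] at h6
    exact absurd h6 (by decide)

end General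

section Example

open DihedralGroup

/-- The cocktail party graph on `Fin n × Bool`: two vertices are adjacent when their first
coordinates differ. -/
def cocktail (n : ℕ) : SimpleGraph (Fin n × Bool) where
  Adj p q := p.1 ≠ q.1
  symm := ⟨fun _ _ h => h.symm⟩
  loopless := ⟨fun _ h => h rfl⟩

variable (n : ℕ)

/-- An element of `ZMod 0` as an integer. -/
def zi (k : ZMod 0) : ℤ := k

lemma zi_add (a b : ZMod 0) : zi (a + b) = zi a + zi b := rfl

lemma zi_sub (a b : ZMod 0) : zi (a - b) = zi a - zi b := rfl

lemma zi_zero : zi 0 = 0 := rfl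

lemma zi_one : zi 1 = 1 := rfl

/-- The homomorphism from the infinite dihedral group given by the two vertices over `i`. -/
def psiFun (i : Fin n) : DihedralGroup 0 → RACG (cocktail n)
  | r k => (gen (cocktail n) (i, false) * gen (cocktail n) (i, true)) ^ (zi k)
  | sr k => gen (cocktail n) (i, false) *
        (gen (cocktail n) (i, false) * gen (cocktail n) (i, true)) ^ (zi k)

/-- The homomorphism from the infinite dihedral group given by the two vertices over `i`. -/
def psi (i : Fin n) : DihedralGroup 0 →* RACG (cocktail n) where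
  toFun := psiFun n i
  map_one' := by
    rw [one_def]
    exact zpow_zero _
  map_mul' x y := by
    have hA := gen_mul_self (cocktail n) (i, false)
    have hB := gen_mul_self (cocktail n) (i, true)
    rcases x with i' | i' <;> rcases y with j' | j' <;>
      simp only [r_mul_r, r_mul_sr, sr_mul_r, sr_mul_sr, psiFun, zi_add, zi_sub]
    all_goals
      set A := gen (cocktail n) (i, false) with hAdef
      set B := gen (cocktail n) (i, true) with hBdef
      have hAinv : A⁻¹ = A := by rw [inv_eq_iff_mul_eq_one]; exact hA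
      have hBinv : B⁻¹ = B := by rw [inv_eq_iff_mul_eq_one]; exact hB
      have h1 : A * (A * B) * A⁻¹ = (A * B)⁻¹ := by
        rw [mul_inv_rev, hAinv, hBinv, ← mul_assoc, hA, one_mul]
      have hconj : ∀ k : ℤ, A * (A * B) ^ k * A = (A * B) ^ (-k) := by
        intro k
        have h2 : A * (A * B) ^ k * A⁻¹ = (A * (A * B) * A⁻¹) ^ k := by
          rw [conj_zpow]
        rw [h1, hAinv, inv_zpow, ← zpow_neg] at h2
        exact h2
      have hcomm : ∀ k : ℤ, (A * B) ^ k * A = A * (A * B) ^ (-k) := by
        intro k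
        rw [← hconj k, ← mul_assoc, ← mul_assoc, hA, one_mul]
    · exact zpow_add _ _ _
    · rw [← mul_assoc, hcomm, mul_assoc, ← zpow_add, neg_add_eq_sub]
    · rw [mul_assoc, ← zpow_add]
    · rw [← mul_assoc (A * (A * B) ^ (zi i')), hconj, ← zpow_add, neg_add_eq_sub]

lemma psi_r (i : Fin n) (k : ZMod 0) : psi n i (r k) =
    (gen (cocktail n) (i, false) * gen (cocktail n) (i, true)) ^ (zi k) := rfl

lemma psi_sr (i : Fin n) (k : ZMod 0) : psi n i (sr k) = gen (cocktail n) (i, false) *
    (gen (cocktail n) (i, false) * gen (cocktail n) (i, true)) ^ (zi k) := rfl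

lemma psi_sr_zero (i : Fin n) : psi n i (sr 0) = gen (cocktail n) (i, false) := by
  rw [psi_sr, zi_zero, zpow_zero, mul_one]

lemma psi_sr_one (i : Fin n) : psi n i (sr 1) = gen (cocktail n) (i, true) := by
  rw [psi_sr, zi_one, zpow_one, ← mul_assoc, gen_mul_self, one_mul]

lemma psi_commute : Pairwise fun i j => ∀ x y, Commute (psi n i x) (psi n j y) := by
  intro i j hij x y
  have hg : ∀ s t : Bool, Commute (gen (cocktail n) (i, s)) (gen (cocktail n) (j, t)) :=
    fun s t => gen_comm (cocktail n) (a := (i, s)) (b := (j, t)) hij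
  have h1 : ∀ t : Bool, ∀ k : ℤ,
      Commute ((gen (cocktail n) (i, false) * gen (cocktail n) (i, true)) ^ k)
        (gen (cocktail n) (j, t)) := fun t k => ((hg _ _).mul_left (hg _ _)).zpow_left k
  have h2 : ∀ k l : ℤ,
      Commute ((gen (cocktail n) (i, false) * gen (cocktail n) (i, true)) ^ k)
        ((gen (cocktail n) (j, false) * gen (cocktail n) (j, true)) ^ l) :=
    fun k l => ((h1 _ k).mul_right (h1 _ k)).zpow_right l
  have h3 : ∀ s : Bool, ∀ l : ℤ, Commute (gen (cocktail n) (i, s))
        ((gen (cocktail n) (j, false) * gen (cocktail n) (j, true)) ^ l) :=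
    fun s l => ((hg _ _).mul_right (hg _ _)).zpow_right l
  rcases x with k | k <;> rcases y with l | l <;> simp only [psi_r, psi_sr]
  · exact h2 _ _
  · exact (h1 _ _).mul_right (h2 _ _)
  · exact (h3 _ _).mul_left (h2 _ _)
  · exact ((hg _ _).mul_right (h3 _ _)).mul_left ((h1 _ _).mul_right (h2 _ _))

/-- The map from the power of the infinite dihedral group. -/
noncomputable def Psi : (Fin n → DihedralGroup 0) →* RACG (cocktail n) :=
  MonoidHom.noncommPiCoprod (psi n) (psi_commute n)

/-- The image of a vertex in the power of the infinite dihedral group. -/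
def vert (p : Fin n × Bool) : Fin n → DihedralGroup 0 :=
  Pi.mulSingle p.1 (sr (if p.2 then 1 else 0))

/-- The map to the power of the infinite dihedral group. -/
def Phi : RACG (cocktail n) →* (Fin n → DihedralGroup 0) :=
  lift (cocktail n) (vert n)
    (by
      intro p
      simp only [vert]
      rw [← Pi.mulSingle_mul, sr_mul_self, Pi.mulSingle_one])
    (by
      intro p q hpq
      exact Pi.mulSingle_commute hpq _ _)

lemma Phi_gen (p : Fin n × Bool) : Phi n (gen (cocktail n) p) = vert n p := lift_gen _ _ _ _ _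

lemma Psi_vert (p : Fin n × Bool) : Psi n (vert n p) = gen (cocktail n) p := by
  obtain ⟨i, b⟩ := p
  simp only [Psi, vert, MonoidHom.noncommPiCoprod_mulSingle]
  cases b
  · simpa using psi_sr_zero n i
  · simpa using psi_sr_one n i

lemma Psi_Phi (g : RACG (cocktail n)) : Psi n (Phi n g) = g := by
  have hg : g ∈ Subgroup.closure (Set.range (gen (cocktail n))) := by
    rw [closure_range_gen]; trivial
  induction hg using Subgroup.closure_induction with
  | mem x hx => obtain ⟨a, rfl⟩ := hx; rw [Phi_gen, Psi_vert]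
  | one => simp
  | mul x y _ _ hx hy => rw [map_mul, map_mul, hx, hy]
  | inv x _ hx => rw [map_inv, map_inv, hx]

lemma Phi_injective : Function.Injective (Phi n) :=
  Function.LeftInverse.injective (Psi_Phi n)

/-- The product over the coordinates of the chosen vertices. -/
def point (e : Fin n → Bool) : RACG (cocktail n) :=
  ((List.finRange n).map fun i => gen (cocktail n) (i, e i)).prod

lemma point_eq (e : Fin n → Bool) :
    point n e = Psi n (fun i => sr (if e i then 1 else 0)) := by
  have h := Finset.noncommProd_toFinset (List.finRange n)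
    (fun i => gen (cocktail n) (i, e i))
    (by
      intro i _ j _ hij
      exact gen_comm (cocktail n) (a := (i, e i)) (b := (j, e j)) hij) (List.nodup_finRange n)
  rw [point, ← h, Psi, MonoidHom.noncommPiCoprod_apply]
  refine Finset.noncommProd_congr (List.toFinset_finRange n) ?_ _
  intro i _
  cases hb : e i
  · simpa using (psi_sr_zero n i).symm
  · simpa using (psi_sr_one n i).symm

lemma Phi_psi (i : Fin n) (x : DihedralGroup 0) :
    Phi n (psi n i x) = Pi.mulSingle i x := by
  have h0 : Phi n (gen (cocktail n) (i, false)) = Pi.mulSingle i (sr 0) := by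
    rw [Phi_gen]; simp [vert]
  have h1 : Phi n (gen (cocktail n) (i, true)) = Pi.mulSingle i (sr 1) := by
    rw [Phi_gen]; simp [vert]
  have h2 : ∀ k : ZMod 0, ((Pi.mulSingle i (sr 0) : Fin n → DihedralGroup 0) *
      Pi.mulSingle i (sr 1)) ^ (zi k) = Pi.mulSingle i (r k) := by
    intro k
    rw [← Pi.mulSingle_mul, sr_mul_sr, sub_zero, ← Pi.mulSingle_zpow, r_one_zpow]
    rfl
  rcases x with k | k
  · rw [psi_r, map_zpow, map_mul, h0, h1, h2]
  · rw [psi_sr, map_mul, map_zpow, map_mul, h0, h1, h2, ← Pi.mulSingle_mul, sr_mul_r, zero_add]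

lemma Phi_Psi (f : Fin n → DihedralGroup 0) : Phi n (Psi n f) = f := by
  have h : (Phi n).comp (Psi n) = MonoidHom.id _ := by
    refine MonoidHom.pi_ext (fun i x => ?_)
    simp only [MonoidHom.coe_comp, Function.comp_apply, MonoidHom.id_apply, Psi, MonoidHom.noncommPiCoprod_mulSingle, Phi_psi]
  exact DFunLike.congr_fun h f

lemma Phi_point (e : Fin n → Bool) :
    Phi n (point n e) = fun i => sr (if e i then 1 else 0) := by
  rw [point_eq, Phi_Psi]

lemma point_isGeneralisedReflection (hn : 2 ≤ n) (e : Fin n → Bool) :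
    IsGeneralisedReflection (cocktail n) (point n e) := by
  refine ⟨(List.finRange n).map fun i => gen (cocktail n) (i, e i), ?_, ?_, ?_, ?_, rfl⟩
  · intro h
    have := congrArg List.length h
    simp at this
    omega
  · refine List.Nodup.map ?_ (List.nodup_finRange n)
    intro i j hij
    by_contra hne
    have h1 : Phi n (gen (cocktail n) (i, e i)) i = Phi n (gen (cocktail n) (j, e j)) i := by
      rw [show gen (cocktail n) (i, e i) = gen (cocktail n) (j, e j) from hij]
    rw [Phi_gen, Phi_gen] at h1
    simp only [vert] at h1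
    rw [Pi.mulSingle_eq_same, Pi.mulSingle_eq_of_ne hne, one_def] at h1
    cases h1
  · intro g hg
    obtain ⟨i, _, rfl⟩ := List.mem_map.1 hg
    exact ⟨1, (i, e i), by simp⟩
  · intro g hg h hh
    obtain ⟨i, _, rfl⟩ := List.mem_map.1 hg
    obtain ⟨j, _, rfl⟩ := List.mem_map.1 hh
    by_cases hij : i = j
    · subst hij; rfl
    · exact gen_comm (cocktail n) (a := (i, e i)) (b := (j, e j)) hij

/-- The subgroup generated by the chosen generalised reflections. -/
def H : Subgroup (RACG (cocktail n)) := Subgroup.closure (Set.range (point n))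

lemma H_form (h : RACG (cocktail n)) (hh : h ∈ H n) :
    (∃ k : Fin n → ZMod 0, Phi n h = fun i => r (k i)) ∨
      (∃ k : Fin n → ZMod 0, Phi n h = fun i => sr (k i)) := by
  induction hh using Subgroup.closure_induction with
  | mem x hx =>
    obtain ⟨e, rfl⟩ := hx
    exact Or.inr ⟨_, Phi_point n e⟩
  | one => exact Or.inl ⟨fun _ => 0, by rw [map_one]; rfl⟩
  | mul x y _ _ hx hy =>
    rcases hx with ⟨k, hk⟩ | ⟨k, hk⟩ <;> rcases hy with ⟨l, hl⟩ | ⟨l, hl⟩
    · exact Or.inl ⟨fun i => k i + l i, by rw [map_mul, hk, hl]; funext i; simp⟩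
    · exact Or.inr ⟨fun i => l i - k i, by rw [map_mul, hk, hl]; funext i; simp⟩
    · exact Or.inr ⟨fun i => k i + l i, by rw [map_mul, hk, hl]; funext i; simp⟩
    · exact Or.inl ⟨fun i => l i - k i, by rw [map_mul, hk, hl]; funext i; simp⟩
  | inv x _ hx =>
    rcases hx with ⟨k, hk⟩ | ⟨k, hk⟩
    · exact Or.inl ⟨fun i => - k i, by rw [map_inv, hk]; funext i; simp⟩
    · exact Or.inr ⟨fun i => k i, by rw [map_inv, hk]; funext i; simp⟩

lemma zmod_zero_of_add (k : ZMod 0) (h : k + k = 0) : k = 0 := by
  have h1 : (zi k) + (zi k) = 0 := h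
  have h2 : zi k = 0 := by omega
  exact h2

lemma squares_commute (g h : H n) : (g * g) * (h * h) = (h * h) * (g * g) := by
  apply Subtype.ext
  apply Phi_injective n
  simp only [Subgroup.coe_mul, map_mul]
  rcases H_form n g g.2 with ⟨k, hk⟩ | ⟨k, hk⟩ <;> rcases H_form n h h.2 with ⟨l, hl⟩ | ⟨l, hl⟩ <;>
    rw [hk, hl] <;> funext i <;> simp [add_comm]

lemma involution_centraliser (x g : H n) (hx : x * x = 1) (hx1 : x ≠ 1) (hxg : x * g = g * x) :
    g * g = 1 := by
  apply Subtype.ext
  apply Phi_injective n
  have hx' : Phi n x * Phi n x = 1 := by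
    rw [← map_mul, ← Subgroup.coe_mul, hx]; simp
  have hxg' : Phi n x * Phi n g = Phi n g * Phi n x := by
    rw [← map_mul, ← map_mul, ← Subgroup.coe_mul, hxg]; simp
  have hx1' : Phi n x ≠ 1 := by
    intro h
    apply hx1
    apply Subtype.ext
    apply Phi_injective n
    rw [h]; simp
  simp only [Subgroup.coe_mul, map_mul]
  rcases H_form n g g.2 with ⟨l, hl⟩ | ⟨l, hl⟩
  · rcases H_form n x x.2 with ⟨k, hk⟩ | ⟨k, hk⟩
    · exfalso
      apply hx1'
      rw [hk] at hx' ⊢
      funext i
      have h1 := congrFun hx' i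
      simp only [Pi.mul_apply, r_mul_r, Pi.one_apply, one_def, r.injEq] at h1
      simp only [Pi.one_apply, one_def, r.injEq]
      exact zmod_zero_of_add _ h1
    · rw [hk, hl] at hxg'
      rw [hl]
      funext i
      have h1 := congrFun hxg' i
      simp only [Pi.mul_apply, sr_mul_r, r_mul_sr, sr.injEq] at h1
      have h2 : l i + l i = 0 := by
        have : k i + l i - (k i - l i) = 0 := by rw [h1]; simp
        calc l i + l i = k i + l i - (k i - l i) := by ring
          _ = 0 := this
      have h3 := zmod_zero_of_add _ h2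
      simp [h3]
  · rw [hl]
    funext i
    simp

lemma not_commutative (hn : 2 ≤ n) : ∃ g h : H n, g * h ≠ h * g := by
  refine ⟨⟨point n (fun _ => false), Subgroup.subset_closure ⟨_, rfl⟩⟩,
    ⟨point n (fun _ => true), Subgroup.subset_closure ⟨_, rfl⟩⟩, ?_⟩
  intro h
  have h1 := congrArg (fun x : H n => Phi n x ⟨0, by omega⟩) h
  simp only [Subgroup.coe_mul, map_mul, Phi_point, Pi.mul_apply] at h1
  simp only [Bool.false_eq_true, if_false, if_true, sr_mul_sr, r.injEq] at h1
  have h2 : ((1 : ℤ) - 0) = 0 - 1 := h1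
  omega

/-- The class modulo two. -/
def cl : DihedralGroup 0 → ZMod 2 × ZMod 2
  | r k => (0, ((zi k : ℤ) : ZMod 2))
  | sr k => (1, ((zi k : ℤ) : ZMod 2))

lemma zmod2_neg (a : ZMod 2) : -a = a := by revert a; decide

lemma cl_mul (x y : DihedralGroup 0) : cl (x * y) = cl x + cl y := by
  rcases x with i | i <;> rcases y with j | j <;>
    simp only [r_mul_r, r_mul_sr, sr_mul_r, sr_mul_sr, cl, zi_add, zi_sub, Int.cast_add,
      Int.cast_sub, Prod.mk_add_mk, Prod.mk.injEq, zero_add, add_zero, true_and]
  · rw [sub_eq_add_neg, zmod2_neg, add_comm]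
  · refine ⟨by decide, ?_⟩
    rw [sub_eq_add_neg, zmod2_neg, add_comm]

/-- The dot product. -/
def dot (a v : ZMod 2 × ZMod 2 × ZMod 2) : ZMod 2 := a.1 * v.1 + a.2.1 * v.2.1 + a.2.2 * v.2.2

lemma exists_dot : ∀ p q : ZMod 2 × ZMod 2 × ZMod 2, ∃ a, a ≠ 0 ∧ dot a p = 0 ∧ dot a q = 0 := by
  decide

/-- Three classes modulo two. -/
def cls (hn : 2 ≤ n) (f : Fin n → DihedralGroup 0) : ZMod 2 × ZMod 2 × ZMod 2 :=
  ((cl (f ⟨0, by omega⟩)).1, (cl (f ⟨0, by omega⟩)).2, (cl (f ⟨1, by omega⟩)).2)

lemma cls_mul (hn : 2 ≤ n) (f g : Fin n → DihedralGroup 0) :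
    cls n hn (f * g) = cls n hn f + cls n hn g := by
  simp [cls, cl_mul]

lemma dot_add (a v w : ZMod 2 × ZMod 2 × ZMod 2) : dot a (v + w) = dot a v + dot a w := by
  simp only [dot, Prod.fst_add, Prod.snd_add]; ring

lemma not_two_generated (hn : 2 ≤ n) (p q : H n) :
    Subgroup.closure ({p, q} : Set (H n)) ≠ ⊤ := by
  intro htop
  obtain ⟨a, ha, hp, hq⟩ := exists_dot (cls n hn (Phi n p)) (cls n hn (Phi n q))
  have key : ∀ h : H n, dot a (cls n hn (Phi n h)) = 0 := by
    intro h
    have hh : h ∈ Subgroup.closure ({p, q} : Set (H n)) := by rw [htop]; trivial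
    have h0 : dot a (cls n hn (1 : Fin n → DihedralGroup 0)) = 0 := by
      have := dot_add a (cls n hn 1) (cls n hn 1)
      rw [← cls_mul, mul_one] at this
      simpa using this
    induction hh using Subgroup.closure_induction with
    | mem x hx =>
      rcases hx with rfl | rfl
      · exact hp
      · exact hq
    | one => simpa using h0
    | mul x y _ _ hx hy =>
      rw [Subgroup.coe_mul, map_mul, cls_mul, dot_add, hx, hy, add_zero]
    | inv x _ hx =>
      have h1 : dot a (cls n hn (Phi n (x * x⁻¹ : H n))) = 0 := by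
        rw [mul_inv_cancel]; simpa using h0
      rw [Subgroup.coe_mul, map_mul, cls_mul, dot_add, hx, zero_add] at h1
      exact h1
  have hpt : ∀ e : Fin n → Bool,
      dot a (1, (if e ⟨0, by omega⟩ then 1 else 0), (if e ⟨1, by omega⟩ then 1 else 0)) = 0 := by
    intro e
    have := key ⟨point n e, Subgroup.subset_closure ⟨_, rfl⟩⟩
    simp only [Phi_point, cls, cl] at this
    have h5 : ∀ b : Bool, ((zi (if b = true then 1 else 0) : ℤ) : ZMod 2) =
        if b = true then 1 else 0 := by
      intro b; cases b
      · simp [zi_zero]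
      · simp [zi_one]
    rw [h5, h5] at this
    exact this
  have e1 := hpt (fun _ => false)
  have e2 := hpt (fun i => decide (i.val = 0))
  have e3 := hpt (fun i => decide (i.val = 1))
  simp [dot] at e1 e2 e3
  apply ha
  obtain ⟨a1, a2, a3⟩ := a
  simp only at e1 e2 e3
  rw [e1] at e2 e3
  simp only [zero_add] at e2 e3
  simp [e1, e2, e3]

end Example

/-- **Theorem.** For every `n ≥ 2` there are a finite simplicial graph whose right-angled Coxeter
group has dimension `n` and a finite set of generalised reflections generating a subgroup that is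
not isomorphic to any right-angled Coxeter group. -/
theorem result : ∀ n : ℕ, 2 ≤ n → ∃ (V : Type) (_ : Fintype V) (Γ : SimpleGraph V),
    (∃ s : Finset V, Γ.IsNClique n s) ∧ Γ.CliqueFree (n + 1) ∧
    ∃ S : Set (RACG Γ), S.Finite ∧ (∀ s ∈ S, IsGeneralisedReflection Γ s) ∧
      ∀ (W : Type v) (Δ : SimpleGraph W), IsEmpty (Subgroup.closure S ≃* RACG Δ) := by
  intro n hn
  refine ⟨Fin n × Bool, inferInstance, cocktail n, ?_, ?_, Set.range (point n),
    Set.finite_range _, ?_, ?_⟩
  · refine ⟨Finset.univ.image (fun i : Fin n => (i, false)), ?_⟩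
    rw [SimpleGraph.isNClique_iff]
    refine ⟨?_, ?_⟩
    · intro p hp q hq hpq
      simp only [Finset.coe_image, Finset.coe_univ, Set.image_univ, Set.mem_range] at hp hq
      obtain ⟨i, rfl⟩ := hp
      obtain ⟨j, rfl⟩ := hq
      intro h
      apply hpq
      simpa using h
    · rw [Finset.card_image_of_injective]
      · simp
      · intro i j h
        simpa using h
  · have hc : (cocktail n).Colorable n := by
      have C : (cocktail n).Coloring (Fin n) := SimpleGraph.Coloring.mk (fun p => p.1)
        (fun {_ _} h => h)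
      simpa using C.colorable
    exact hc.cliqueFree (Nat.lt_succ_self n)
  · rintro _ ⟨e, rfl⟩
    exact point_isGeneralisedReflection n hn e
  · intro W Δ
    exact not_racg Δ (H := H n) (squares_commute n) (involution_centraliser n)
      (not_commutative n hn) (not_two_generated n hn)

end Pool.Agent.Results.MP_6a2cdd_al.NotCoxeter
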